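import Pool.Agent.P8H67.TU.Stm

/-!
Part LOCU of project TU: the slice `F = 0` is locally a retract of an open subset of `ℝ^(n-d)`.
-/

set_option autoImplicit false

open Set Filter Topology

namespace Pool.Agent.P8H55.TU

open Pool.Agent.P8H67.TU
open Pool.Agent.P8H67.TD (RA)
open Pool.Agent.N520.SV (Sx Chain face bdry)

/-- the chain map -/
noncomputable def psh {X Y : Type} [TopologicalSpace X] [TopologicalSpace Y] (f : C(X, Y)) (k : ℕ) :
    Chain k X →ₗ[ℝ] Chain k Y :=
  Finsupp.lmapDomain ℝ ℝ (fun σ : C(Sx k, X) => f.comp σ)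

theorem psh_single {X Y : Type} [TopologicalSpace X] [TopologicalSpace Y] (f : C(X, Y)) (k : ℕ)
    (σ : C(Sx k, X)) (r : ℝ) :
    psh f k (Finsupp.single σ r) = Finsupp.single (f.comp σ) r := by
  unfold psh
  rw [Finsupp.lmapDomain_apply, Finsupp.mapDomain_single]

theorem psh_bdry {X Y : Type} [TopologicalSpace X] [TopologicalSpace Y] (f : C(X, Y)) (k : ℕ)
    (c : Chain (k + 1) X) : bdry k (psh f (k + 1) c) = psh f k (bdry k c) := by
  have h : (bdry k) ∘ₗ (psh f (k + 1)) = (psh f k) ∘ₗ (bdry k) := by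
    refine Finsupp.lhom_ext fun σ r => ?_
    rw [LinearMap.comp_apply, LinearMap.comp_apply, psh_single]
    unfold bdry
    rw [Finsupp.linearCombination_single, Finsupp.linearCombination_single, map_smul, map_sum]
    congr 1
    refine Finset.sum_congr rfl fun i _ => ?_
    rw [map_smul, psh_single]
    rfl
  exact LinearMap.congr_fun h c

theorem ra_retract {X Y : Type} [TopologicalSpace X] [TopologicalSpace Y] (f : C(X, Y))
    (g : C(Y, X)) (h : ∀ x, g (f x) = x) (j : ℕ) (hY : RA j Y) : RA j X := by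
  intro c hc
  obtain ⟨w, hw⟩ := hY (psh f (j + 1) c) (by rw [psh_bdry, hc, map_zero])
  refine ⟨psh g (j + 2) w, ?_⟩
  rw [psh_bdry, hw]
  unfold psh
  rw [Finsupp.lmapDomain_apply, Finsupp.lmapDomain_apply, ← Finsupp.mapDomain_comp]
  have : ((fun σ : C(Sx (j + 1), Y) => g.comp σ) ∘ fun σ : C(Sx (j + 1), X) => f.comp σ) = id := by
    funext σ
    ext t
    exact h (σ t)
  rw [this, Finsupp.mapDomain_id]

/-- also in dimension zero -/
theorem ra_open
    (hq : ∀ (Q : Type) [NormedAddCommGroup Q] [NormedSpace ℝ Q] [FiniteDimensional ℝ Q] (U : Set Q),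
      IsOpen U → 1 ≤ Module.finrank ℝ Q → ∀ W : Set U, IsOpen W →
      ∀ j : ℕ, Module.finrank ℝ Q ≤ j + 1 → RA j W)
    (Q : Type) [NormedAddCommGroup Q] [NormedSpace ℝ Q] [FiniteDimensional ℝ Q] (U : Set Q)
    (hU : IsOpen U) (W : Set U) (hW : IsOpen W) (j : ℕ) (hj : Module.finrank ℝ Q ≤ j + 1) :
    RA j W := by
  rcases Nat.eq_zero_or_pos (Module.finrank ℝ Q) with h0 | h0
  · have h1 : Module.finrank ℝ (Q × ℝ) = 1 := by
      rw [Module.finrank_prod, h0, Module.finrank_self]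
    have hU' : IsOpen (Prod.fst ⁻¹' U : Set (Q × ℝ)) := hU.preimage continuous_fst
    have hc : Continuous (fun x : (Prod.fst ⁻¹' U : Set (Q × ℝ)) => (⟨x.1.1, x.2⟩ : U)) :=
      (continuous_fst.comp continuous_subtype_val).subtype_mk _
    have key := hq (Q × ℝ) (Prod.fst ⁻¹' U) hU' h1.ge _ (hW.preimage hc) j (by rw [h1]; omega)
    refine ra_retract
      ⟨fun w : W => (⟨⟨(w.1.1, (0 : ℝ)), w.1.2⟩, w.2⟩ :
        ((fun x : (Prod.fst ⁻¹' U : Set (Q × ℝ)) => (⟨x.1.1, x.2⟩ : U)) ⁻¹' W : Set _)), ?_⟩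
      ⟨fun y => ⟨⟨y.1.1.1, y.1.2⟩, y.2⟩, ?_⟩ (fun x => rfl) j key
    · exact (((continuous_subtype_val.comp continuous_subtype_val).prodMk
        continuous_const).subtype_mk _).subtype_mk _
    · exact ((continuous_fst.comp (continuous_subtype_val.comp continuous_subtype_val)).subtype_mk
        _).subtype_mk _
  · exact hq Q U hU h0 W hW j hj

/-- **Part LOCU** -/
theorem locu : S_LOCU := by
  intro hq E _ _ _ Ω d Φ F hΩ hΦ h0 hadd himm hsat hprp hF hFa u
  have : CompleteSpace E := FiniteDimensional.complete ℝ E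
  obtain ⟨p, hp, hFp⟩ := u
  set f0 : (Fin d → ℝ) × E → E := fun x => Φ x.1 x.2 with hf0
  have hstrict : HasStrictFDerivAt f0 (fderiv ℝ f0 (0, p)) (0, p) :=
    (hΦ.contDiffAt).hasStrictFDerivAt (by norm_num)
  set D := fderiv ℝ f0 (0, p) with hD
  -- the derivative in the direction of `E`
  have hD2 : ∀ v : E, D (0, v) = v := by
    intro v
    have h1 : HasFDerivAt (fun q : E => f0 ((0 : Fin d → ℝ), q))
        (D.comp (ContinuousLinearMap.inr ℝ (Fin d → ℝ) E)) p := by
      exact HasFDerivAt.comp (g := f0) (g' := D) (f := fun q : E => ((0 : Fin d → ℝ), q))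
        (f' := ContinuousLinearMap.inr ℝ (Fin d → ℝ) E) p hstrict.hasFDerivAt
        (hasFDerivAt_prodMk_right (0 : Fin d → ℝ) p)
    have h2 : HasFDerivAt (fun q : E => f0 ((0 : Fin d → ℝ), q)) (ContinuousLinearMap.id ℝ E) p := by
      have : (fun q : E => f0 ((0 : Fin d → ℝ), q)) = id := by
        funext q
        exact h0 q
      rw [this]
      exact hasFDerivAt_id p
    have h3 := h1.unique h2
    have h4 := congrArg (fun T : E →L[ℝ] E => T v) h3
    simpa using h4
  -- the derivative in the direction of the flow is injective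
  have hD1 : ∀ a : Fin d → ℝ, D (a, 0) = 0 → a = 0 := by
    intro a ha
    refine hprp.2 a p hp (himm a p ?_)
    have h1 : HasFDerivAt (fun b : Fin d → ℝ => f0 (b, p))
        (D.comp (ContinuousLinearMap.inl ℝ (Fin d → ℝ) E)) 0 := by
      exact HasFDerivAt.comp (g := f0) (g' := D) (f := fun b : Fin d → ℝ => (b, p))
        (f' := ContinuousLinearMap.inl ℝ (Fin d → ℝ) E) 0 hstrict.hasFDerivAt
        (hasFDerivAt_prodMk_left (0 : Fin d → ℝ) p)
    have h2 : fderiv ℝ (fun b => Φ b p) 0 = D.comp (ContinuousLinearMap.inl ℝ (Fin d → ℝ) E) :=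
      h1.fderiv
    rw [h2]
    simpa using ha
  set L : (Fin d → ℝ) →ₗ[ℝ] E :=
    (D.comp (ContinuousLinearMap.inl ℝ (Fin d → ℝ) E)).toLinearMap with hL
  have hLapp : ∀ a, L a = D (a, 0) := fun a => by simp [hL]
  have hLinj : Function.Injective L := by
    refine (injective_iff_map_eq_zero L).2 fun a ha => hD1 a ?_
    rw [← hLapp]
    exact ha
  obtain ⟨S, hS⟩ := Submodule.exists_isCompl (LinearMap.range L)
  have hrk : Module.finrank ℝ S + d = Module.finrank ℝ E := by
    have h1 := Submodule.finrank_add_eq_of_isCompl hS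
    have h2 := LinearMap.finrank_range_of_inj hLinj
    rw [Module.finrank_fin_fun] at h2
    omega
  -- the chart
  set A : (Fin d → ℝ) × S →L[ℝ] (Fin d → ℝ) × E :=
    (ContinuousLinearMap.fst ℝ (Fin d → ℝ) S).prod
      (S.subtypeL.comp (ContinuousLinearMap.snd ℝ (Fin d → ℝ) S)) with hA
  have hAapp : ∀ x, A x = (x.1, (x.2 : E)) := fun x => rfl
  set DG : (Fin d → ℝ) × S →L[ℝ] E := D.comp A with hDG
  have hDGapp : ∀ x, DG x = L x.1 + (x.2 : E) := by
    intro x
    have : DG x = D ((x.1, 0) + (0, (x.2 : E))) := by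
      rw [hDG, ContinuousLinearMap.comp_apply, hAapp, Prod.mk_add_mk, add_zero, zero_add]
    rw [this, map_add, hD2, hLapp]
  have hbij : Function.Bijective DG := by
    constructor
    · refine (injective_iff_map_eq_zero DG).2 fun x hx => ?_
      rw [hDGapp] at hx
      have h1 : L x.1 ∈ LinearMap.range L ⊓ S := by
        refine ⟨⟨x.1, rfl⟩, ?_⟩
        rw [eq_neg_of_add_eq_zero_left hx]
        exact S.neg_mem x.2.2
      rw [hS.inf_eq_bot, Submodule.mem_bot] at h1
      have h2 : x.1 = 0 := hLinj (by rw [h1, map_zero])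
      rw [h1, zero_add] at hx
      have h3 : x.2 = 0 := Subtype.ext hx
      exact Prod.ext h2 h3
    · intro y
      have hy : y ∈ LinearMap.range L ⊔ S := by
        rw [hS.sup_eq_top]
        trivial
      obtain ⟨_, ⟨a, rfl⟩, s, hs, hsum⟩ := Submodule.mem_sup.1 hy
      exact ⟨(a, ⟨s, hs⟩), by rw [hDGapp]; exact hsum⟩
  set e : ((Fin d → ℝ) × S) ≃L[ℝ] E :=
    (LinearEquiv.ofBijective DG.toLinearMap hbij).toContinuousLinearEquiv with he
  have heq : (e : ((Fin d → ℝ) × S) →L[ℝ] E) = DG := by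
    refine ContinuousLinearMap.ext fun x => ?_
    rfl
  set G : (Fin d → ℝ) × S → E := fun x => Φ x.1 (p + x.2) with hG
  have hGs : HasStrictFDerivAt G (e : ((Fin d → ℝ) × S) →L[ℝ] E) 0 := by
    rw [heq]
    have h1 : HasStrictFDerivAt (fun x : (Fin d → ℝ) × S => ((0 : Fin d → ℝ), p) + A x) A 0 :=
      A.hasStrictFDerivAt.const_add _
    have h2 : HasStrictFDerivAt f0 D ((fun x : (Fin d → ℝ) × S => ((0 : Fin d → ℝ), p) + A x) 0) := by
      simpa using hstrict
    have h3 := h2.comp (0 : (Fin d → ℝ) × S) h1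
    refine h3.congr_of_eventuallyEq (Filter.Eventually.of_forall fun x => ?_)
    simp [hf0, hG, hAapp]
  set ch := hGs.toOpenPartialHomeomorph G with hch
  have hcht : p ∈ ch.target := by
    have := hGs.image_mem_toOpenPartialHomeomorph_target
    have h2 : G 0 = p := by simp [hG, h0]
    rw [h2] at this
    exact this
  have hchG : ∀ x, ch x = G x := fun x => rfl
  have hchr : ∀ q ∈ ch.target, Φ (ch.symm q).1 (p + (ch.symm q).2) = q := by
    intro q hq
    have := ch.right_inv hq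
    rw [hchG] at this
    exact this
  -- the slice
  set S0 : Set S := {s | p + (s : E) ∈ Ω} with hS0
  have hS0o : IsOpen S0 := hΩ.preimage (by fun_prop)
  have hκ : ∀ s : S0, Φ (-F (p + (s.1 : E))) (p + (s.1 : E)) ∈ Ω ∧
      F (Φ (-F (p + (s.1 : E))) (p + (s.1 : E))) = 0 := by
    intro s
    refine ⟨hsat _ _ s.2, ?_⟩
    rw [hFa _ _ s.2, add_neg_cancel]
  let κ : S0 → {q : E // q ∈ Ω ∧ F q = 0} := fun s => ⟨_, hκ s⟩
  have hκc : Continuous κ := by
    refine Continuous.subtype_mk ?_ _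
    have h1 : Continuous (fun s : S0 => F (p + (s.1 : E))) := by
      refine ContinuousOn.comp_continuous hF (by fun_prop) (fun s => s.2)
    exact hΦ.continuous.comp ((h1.neg).prodMk (by fun_prop))
  refine ⟨{q | q.1 ∈ ch.target}, ch.open_target.preimage continuous_subtype_val, hcht, ?_⟩
  intro W hW hWB j hj
  -- the coordinate
  have hmem : ∀ q : {q : E // q ∈ Ω ∧ F q = 0}, q.1 ∈ ch.target →
      p + ((ch.symm q.1).2 : E) = Φ (-(ch.symm q.1).1) q.1 := by
    intro q hq
    have h1 := hchr q.1 hq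
    rw [← h1, ← hadd]
    rw [h1, neg_add_cancel, h0]
  have hin : ∀ q : {q : E // q ∈ Ω ∧ F q = 0}, q.1 ∈ ch.target → (ch.symm q.1).2 ∈ S0 := by
    intro q hq
    show p + ((ch.symm q.1).2 : E) ∈ Ω
    rw [hmem q hq]
    exact hsat _ _ q.2.1
  have hκq : ∀ (q : {q : E // q ∈ Ω ∧ F q = 0}) (hq : q.1 ∈ ch.target),
      κ ⟨(ch.symm q.1).2, hin q hq⟩ = q := by
    intro q hq
    refine Subtype.ext ?_
    show Φ (-F (p + ((ch.symm q.1).2 : E))) (p + ((ch.symm q.1).2 : E)) = q.1
    have h1 : F (p + ((ch.symm q.1).2 : E)) = -(ch.symm q.1).1 := by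
      rw [hmem q hq, hFa _ _ q.2.1, q.2.2, zero_add]
    rw [h1, neg_neg]
    exact hchr q.1 hq
  have key := ra_open hq S S0 hS0o (κ ⁻¹' W) (hW.preimage hκc) j (by omega)
  refine ra_retract
    ⟨fun w : W => (⟨⟨(ch.symm w.1.1).2, hin w.1 (hWB w.2)⟩, ?_⟩ : (κ ⁻¹' W : Set S0)), ?_⟩
    ⟨fun y => ⟨κ y.1, y.2⟩, ?_⟩ ?_ j key
  · show κ _ ∈ W
    rw [hκq w.1 (hWB w.2)]
    exact w.2
  · refine Continuous.subtype_mk (Continuous.subtype_mk ?_ _) _
    refine continuous_snd.comp ?_
    exact ContinuousOn.comp_continuous ch.continuousOn_symm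
      (continuous_subtype_val.comp continuous_subtype_val) (fun w => hWB w.2)
  · exact (hκc.comp continuous_subtype_val).subtype_mk _
  · intro w
    refine Subtype.ext ?_
    exact hκq w.1 (hWB w.2)

end Pool.Agent.P8H55.TU
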